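import Pool.Agent.W710.DP.Stm2

set_option autoImplicit false

namespace Pool.Agent.W135.DP

open Pool.Agent.W710.DP MeasureTheory

/-- smooth order -/
local notation "∞'" => ((⊤ : ℕ∞) : WithTop ℕ∞)

/-- bounds for a smooth compactly supported function -/
lemma bump_bound (χ : ℝ × ℝ → ℝ) (h : Sm χ) (hc : HasCompactSupport χ) :
    ∃ C : ℝ, 0 ≤ C ∧ ∀ p, |χ p| ≤ C ∧ ‖fderiv ℝ χ p‖ ≤ C := by
  obtain ⟨C1, h1⟩ := hc.exists_bound_of_continuous h.continuous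
  obtain ⟨C2, h2⟩ := (hc.fderiv (𝕜 := ℝ)).exists_bound_of_continuous
    (h.continuous_fderiv (by simp))
  refine ⟨max C1 C2, ?_, fun p => ⟨?_, ?_⟩⟩
  · exact le_trans (norm_nonneg _) ((h1 0).trans (le_max_left _ _))
  · exact (h1 p).trans (le_max_left _ _)
  · exact (h2 p).trans (le_max_right _ _)

lemma px_smooth (χ : ℝ × ℝ → ℝ) (h : Sm χ) : Sm (px χ) := by
  unfold px
  exact (h.fderiv_right (m := ∞') (by simp)).clm_apply contDiff_const

lemma ps_smooth (χ : ℝ × ℝ → ℝ) (h : Sm χ) : Sm (ps χ) := by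
  unfold ps
  exact (h.fderiv_right (m := ∞') (by simp)).clm_apply contDiff_const

lemma px_cs (χ : ℝ × ℝ → ℝ) (h : HasCompactSupport χ) : HasCompactSupport (px χ) := by
  have := h.fderiv (𝕜 := ℝ)
  refine HasCompactSupport.comp_left (g := fun L : ℝ × ℝ →L[ℝ] ℝ => L (1, 0)) this (by simp)

lemma ps_cs (χ : ℝ × ℝ → ℝ) (h : HasCompactSupport χ) : HasCompactSupport (ps χ) := by
  have := h.fderiv (𝕜 := ℝ)
  refine HasCompactSupport.comp_left (g := fun L : ℝ × ℝ →L[ℝ] ℝ => L (0, 1)) this (by simp)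

lemma prod_bound {χ w : ℝ × ℝ → ℝ} {C ε : ℝ} {p : ℝ × ℝ} (hχ : DifferentiableAt ℝ χ p)
    (hw : DifferentiableAt ℝ w p) (hC : 0 ≤ C) (h1 : |χ p| ≤ C) (h2 : ‖fderiv ℝ χ p‖ ≤ C)
    (h3 : |w p| ≤ ε) (h4 : ‖fderiv ℝ w p‖ ≤ ε) :
    ‖fderiv ℝ (fun z => χ z * w z) p‖ ≤ 2 * C * ε := by
  rw [fderiv_fun_mul hχ hw]
  refine (norm_add_le _ _).trans ?_
  rw [norm_smul, norm_smul, Real.norm_eq_abs, Real.norm_eq_abs]
  have e0 : 0 ≤ ε := (abs_nonneg _).trans h3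
  have a1 : |χ p| * ‖fderiv ℝ w p‖ ≤ C * ε := mul_le_mul h1 h4 (norm_nonneg _) hC
  have a2 : |w p| * ‖fderiv ℝ χ p‖ ≤ ε * C := mul_le_mul h3 h2 (norm_nonneg _) e0
  linarith

/-- cutting off a function -/
lemma cut_small (χ : ℝ × ℝ → ℝ) (h : Sm χ) (hc : HasCompactSupport χ) :
    ∃ C : ℝ, 0 ≤ C ∧ ∀ (w : ℝ × ℝ → ℝ) (ε : ℝ), 0 ≤ ε → Sm w →
      (∀ p ∈ tsupport χ, |w p| ≤ ε ∧ ‖fderiv ℝ w p‖ ≤ ε) →
      SmallC1 (C * ε) (fun p => χ p * w p) := by
  obtain ⟨C, hC, hb⟩ := bump_bound χ h hc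
  refine ⟨2 * C, by positivity, fun w ε hε hw hs => ⟨h.mul hw, fun p => ?_⟩⟩
  by_cases hp : p ∈ tsupport χ
  · obtain ⟨h3, h4⟩ := hs p hp
    refine ⟨?_, prod_bound (h.differentiable (by simp) p) (hw.differentiable (by simp) p)
      hC (hb p).1 (hb p).2 h3 h4⟩
    rw [abs_mul]
    have := mul_le_mul (hb p).1 h3 (abs_nonneg _) hC
    nlinarith [mul_nonneg hC hε]
  · have h0 : (fun z => χ z * w z) =ᶠ[nhds p] fun _ => 0 := by
      filter_upwards [notMem_tsupport_iff_eventuallyEq.1 hp] with z hz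
      simp [hz]
    rw [h0.fderiv_eq, h0.self_of_nhds]
    have : 0 ≤ 2 * C * ε := by positivity
    simp [this]

/-- cutting off a primitive -/
lemma cut_prim (χ : ℝ × ℝ → ℝ) (h : Sm χ) (hc : HasCompactSupport χ) (U : Set (ℝ × ℝ))
    (hU : IsOpen U) (hs : tsupport χ ⊆ U) :
    ∃ C : ℝ, 0 ≤ C ∧ ∀ (w p q : ℝ × ℝ → ℝ) (ε : ℝ), 0 ≤ ε → Sm p → Sm q →
      (∀ z ∈ U, HasFDerivAt w (p z • ContinuousLinearMap.fst ℝ ℝ ℝ +
        q z • ContinuousLinearMap.snd ℝ ℝ ℝ) z) →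
      (∀ z ∈ U, |w z| ≤ ε ∧ ‖fderiv ℝ w z‖ ≤ ε ∧ |p z| ≤ ε ∧ ‖fderiv ℝ p z‖ ≤ ε ∧
        |q z| ≤ ε ∧ ‖fderiv ℝ q z‖ ≤ ε) →
      Sm (fun z => χ z * w z) ∧ HasCompactSupport (fun z => χ z * w z) ∧
      (∀ z, ‖fderiv ℝ (px (fun z => χ z * w z)) z‖ ≤ C * ε ∧
        ‖fderiv ℝ (ps (fun z => χ z * w z)) z‖ ≤ C * ε) ∧
      ∀ z, (χ =ᶠ[nhds z] fun _ => 1) → z ∈ U →
        px (fun z => χ z * w z) z = p z ∧ ps (fun z => χ z * w z) z = q z := by
  obtain ⟨C0, hC0, hb0⟩ := bump_bound χ h hc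
  obtain ⟨C1, hC1, hb1⟩ := bump_bound _ (px_smooth χ h) (px_cs χ hc)
  obtain ⟨C2, hC2, hb2⟩ := bump_bound _ (ps_smooth χ h) (ps_cs χ hc)
  set C := C0 + C1 + C2 with hCdef
  have c0 : C0 ≤ C := by linarith
  have c1 : C1 ≤ C := by linarith
  have c2 : C2 ≤ C := by linarith
  have hC : 0 ≤ C := by linarith
  refine ⟨4 * C, by positivity, fun w p q ε hε hp hq hw hbd => ?_⟩
  have hdiff : ∀ z ∈ U, fderiv ℝ w z = p z • ContinuousLinearMap.fst ℝ ℝ ℝ +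
        q z • ContinuousLinearMap.snd ℝ ℝ ℝ := fun z hz => (hw z hz).fderiv
  have hsm : ContDiffOn ℝ ∞' w U := by
    have hfd : ContDiffOn ℝ ∞' (fderiv ℝ w) U := by
      refine ContDiffOn.congr (f := fun z => p z • ContinuousLinearMap.fst ℝ ℝ ℝ +
        q z • ContinuousLinearMap.snd ℝ ℝ ℝ) ?_ hdiff
      exact ((hp.smul contDiff_const).add (hq.smul contDiff_const)).contDiffOn
    have := (contDiffOn_succ_iff_fderiv_of_isOpen (𝕜 := ℝ) (n := ∞') (f := w) hU).2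
      ⟨fun z hz => (hw z hz).differentiableAt.differentiableWithinAt, by simp, hfd⟩
    simpa using this
  have hout : ∀ z, z ∉ tsupport χ → (fun z => χ z * w z) =ᶠ[nhds z] fun _ => 0 := by
    intro z hz
    filter_upwards [notMem_tsupport_iff_eventuallyEq.1 hz] with y hy
    simp [hy]
  have hχd : Differentiable ℝ χ := h.differentiable (by simp)
  have hpxd : Differentiable ℝ (px χ) := (px_smooth χ h).differentiable (by simp)
  have hpsd : Differentiable ℝ (ps χ) := (ps_smooth χ h).differentiable (by simp)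
  have hwd : ∀ z ∈ U, DifferentiableAt ℝ w z := fun z hz => (hw z hz).differentiableAt
  have epx : ∀ z ∈ U, px (fun z => χ z * w z) z = px χ z * w z + χ z * p z := by
    intro z hz
    unfold px
    rw [fderiv_fun_mul (hχd z) (hwd z hz), hdiff z hz]
    simp
    ring
  have eps : ∀ z ∈ U, ps (fun z => χ z * w z) z = ps χ z * w z + χ z * q z := by
    intro z hz
    unfold ps
    rw [fderiv_fun_mul (hχd z) (hwd z hz), hdiff z hz]
    simp
    ring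
  refine ⟨?_, hc.mul_right, fun z => ?_, fun z hz hzU => ?_⟩
  · refine contDiff_iff_contDiffAt.2 fun z => ?_
    by_cases hz : z ∈ U
    · exact h.contDiffAt.mul (hsm.contDiffAt (hU.mem_nhds hz))
    · exact (contDiffAt_const (c := (0 : ℝ))).congr_of_eventuallyEq
        (hout z fun h' => hz (hs h'))
  · by_cases hz : z ∈ U
    · have hn := hU.mem_nhds hz
      obtain ⟨b1, b2, b3, b4, b5, b6⟩ := hbd z hz
      constructor
      · have e1 : px (fun z => χ z * w z) =ᶠ[nhds z] fun z => px χ z * w z + χ z * p z := by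
          filter_upwards [hn] with y hy using epx y hy
        rw [e1.fderiv_eq, fderiv_fun_add ((hpxd z).fun_mul (hwd z hz))
          ((hχd z).fun_mul (hp.differentiable (by simp) z))]
        refine (norm_add_le _ _).trans ?_
        have k1 := prod_bound (hpxd z) (hwd z hz) hC ((hb1 z).1.trans c1) ((hb1 z).2.trans c1)
          b1 b2
        have k2 := prod_bound (hχd z) (hp.differentiable (by simp) z) hC ((hb0 z).1.trans c0)
          ((hb0 z).2.trans c0) b3 b4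
        linarith
      · have e1 : ps (fun z => χ z * w z) =ᶠ[nhds z] fun z => ps χ z * w z + χ z * q z := by
          filter_upwards [hn] with y hy using eps y hy
        rw [e1.fderiv_eq, fderiv_fun_add ((hpsd z).fun_mul (hwd z hz))
          ((hχd z).fun_mul (hq.differentiable (by simp) z))]
        refine (norm_add_le _ _).trans ?_
        have k1 := prod_bound (hpsd z) (hwd z hz) hC ((hb2 z).1.trans c2) ((hb2 z).2.trans c2)
          b1 b2
        have k2 := prod_bound (hχd z) (hq.differentiable (by simp) z) hC ((hb0 z).1.trans c0)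
          ((hb0 z).2.trans c0) b5 b6
        linarith
    · have hz' : z ∉ tsupport χ := fun h' => hz (hs h')
      have e0 : ∀ᶠ y in nhds z, (fun z => χ z * w z) =ᶠ[nhds y] fun _ => 0 :=
        (hout z hz').eventuallyEq_nhds
      have e1 : px (fun z => χ z * w z) =ᶠ[nhds z] fun _ => 0 := by
        filter_upwards [e0] with y hy
        unfold px
        rw [hy.fderiv_eq]
        simp
      have e2 : ps (fun z => χ z * w z) =ᶠ[nhds z] fun _ => 0 := by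
        filter_upwards [e0] with y hy
        unfold ps
        rw [hy.fderiv_eq]
        simp
      rw [e1.fderiv_eq, e2.fderiv_eq]
      have : 0 ≤ 4 * C * ε := by positivity
      simp [this]
  · have d0 : fderiv ℝ χ z = 0 := by
      rw [hz.fderiv_eq]; simp
    have v1 : χ z = 1 := hz.self_of_nhds
    rw [epx z hzU, eps z hzU]
    unfold px ps
    rw [d0, v1]
    simp

/-- plane coordinates -/
noncomputable def cc : ℝ × ℝ →L[ℝ] ℂ := (Complex.equivRealProdCLM.symm : ℝ × ℝ →L[ℝ] ℂ)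

lemma cc_apply (x y : ℝ) : cc (x, y) = (⟨x, y⟩ : ℂ) := by
  apply Complex.ext <;> simp [cc, Complex.equivRealProdCLM_symm_apply]

/-- rescaled displacement -/
noncomputable def Hf (a : ℂ → ℂ) (ρ : ℝ) (p : ℝ × ℝ) : ℂ := ρ⁻¹ • a (ρ • cc p) - cc p

lemma Hf_smooth (a : ℂ → ℂ) (ρ : ℝ) (ha : ContDiff ℝ ∞' a) : ContDiff ℝ ∞' (Hf a ρ) := by
  unfold Hf
  exact ((ha.comp (cc.contDiff.const_smul ρ)).const_smul _).sub cc.contDiff

lemma Hf_deriv (a : ℂ → ℂ) (ρ : ℝ) (hρ : ρ ≠ 0) (ha : Differentiable ℝ a) (p : ℝ × ℝ) :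
    HasFDerivAt (Hf a ρ) ((fderiv ℝ a (ρ • cc p)).comp cc - cc) p := by
  have h1 : HasFDerivAt (fun q : ℝ × ℝ => ρ • cc q) (ρ • cc) p := cc.hasFDerivAt.const_smul ρ
  have h2 := ((ha (ρ • cc p)).hasFDerivAt.comp p h1).const_smul ρ⁻¹
  have h3 := h2.sub (cc.hasFDerivAt (x := p))
  refine h3.congr_fderiv ?_
  ext <;> simp [hρ]

lemma Hf_small (a : ℂ → ℂ) (ha : ContDiff ℝ ∞' a) (h0 : a 0 = 0)
    (hd : fderiv ℝ a 0 = ContinuousLinearMap.id ℝ ℂ) (ω : ℝ) (hω : 0 < ω) :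
    ∃ ρ : ℝ, 0 < ρ ∧ ∀ p : ℝ × ℝ, ‖p‖ ≤ 4 → ‖Hf a ρ p‖ ≤ ω ∧ ‖fderiv ℝ (Hf a ρ) p‖ ≤ ω := by
  have hcont : Continuous (fderiv ℝ a) := ha.continuous_fderiv (by simp)
  set K := ‖cc‖ + 1 with hK
  have hK0 : 0 < K := by positivity
  have hK1 : ‖cc‖ ≤ K := by linarith
  obtain ⟨r, hr, hr'⟩ := Metric.continuousAt_iff.1 (hcont.continuousAt (x := (0 : ℂ)))
    (ω / (4 * K)) (by positivity)
  have hda : Differentiable ℝ a := ha.differentiable (by simp)
  refine ⟨r / (8 * K), by positivity, ?_⟩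
  set ρ := r / (8 * K) with hρ
  have hρ0 : 0 < ρ := by positivity
  have key : ∀ p : ℝ × ℝ, ‖p‖ ≤ 4 → ‖(fderiv ℝ a (ρ • cc p)).comp cc - cc‖ ≤ ω / 4 := by
    intro p hp
    have e1 : ‖ρ • cc p‖ < r := by
      rw [norm_smul, Real.norm_eq_abs, abs_of_pos hρ0]
      have : ‖cc p‖ ≤ K * 4 := (cc.le_opNorm p).trans
        (mul_le_mul hK1 hp (norm_nonneg _) hK0.le)
      calc ρ * ‖cc p‖ ≤ ρ * (K * 4) := by gcongr
        _ = r / 2 := by rw [hρ]; field_simp; norm_num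
        _ < r := by linarith
    have e2 := hr' (x := ρ • cc p) (by simpa [dist_eq_norm] using e1)
    rw [dist_eq_norm, hd] at e2
    have e3 : (fderiv ℝ a (ρ • cc p)).comp cc - cc =
        (fderiv ℝ a (ρ • cc p) - ContinuousLinearMap.id ℝ ℂ).comp cc := by
      ext <;> simp
    rw [e3]
    calc _ ≤ ‖fderiv ℝ a (ρ • cc p) - ContinuousLinearMap.id ℝ ℂ‖ * ‖cc‖ :=
          ContinuousLinearMap.opNorm_comp_le _ _
      _ ≤ (ω / (4 * K)) * K := mul_le_mul e2.le hK1 (norm_nonneg _) (by positivity)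
      _ = ω / 4 := by field_simp
  intro p hp
  constructor
  · have hseg := (convex_closedBall (0 : ℝ × ℝ) 4).norm_image_sub_le_of_norm_hasFDerivWithin_le
      (f := Hf a ρ) (f' := fun p => (fderiv ℝ a (ρ • cc p)).comp cc - cc) (C := ω / 4)
      (fun x _ => (Hf_deriv a ρ hρ0.ne' hda x).hasFDerivWithinAt)
      (fun x hx => key x (by simpa using hx)) (x := 0) (y := p) (by simp) (by simpa using hp)
    have z0 : Hf a ρ 0 = 0 := by simp [Hf, h0]
    rw [z0, sub_zero, sub_zero] at hseg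
    nlinarith
  · rw [(Hf_deriv a ρ hρ0.ne' hda p).fderiv]
    linarith [key p hp]

lemma jac_det (A : ℂ →L[ℝ] ℂ) :
    LinearMap.det (A : ℂ →ₗ[ℝ] ℂ) =
      (A 1).re * (A Complex.I).im - (A Complex.I).re * (A 1).im := by
  rw [← LinearMap.det_toMatrix Complex.basisOneI, Matrix.det_fin_two]
  simp [LinearMap.toMatrix_apply]

lemma comp_re (f : ℝ × ℝ → ℂ) (p : ℝ × ℝ) (A : ℝ × ℝ →L[ℝ] ℂ) (h : HasFDerivAt f A p) :
    HasFDerivAt (fun z => (f z).re) (Complex.reCLM.comp A) p :=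
  (Complex.reCLM.hasFDerivAt (x := f p)).comp p h

lemma comp_im (f : ℝ × ℝ → ℂ) (p : ℝ × ℝ) (A : ℝ × ℝ →L[ℝ] ℂ) (h : HasFDerivAt f A p) :
    HasFDerivAt (fun z => (f z).im) (Complex.imCLM.comp A) p :=
  (Complex.imCLM.hasFDerivAt (x := f p)).comp p h

lemma Hf_jac (a : ℂ → ℂ) (ρ : ℝ) (hρ : ρ ≠ 0) (ha : Differentiable ℝ a)
    (hdet : ∀ z : ℂ, LinearMap.det ((fderiv ℝ a z : ℂ →L[ℝ] ℂ) : ℂ →ₗ[ℝ] ℂ) = 1) (p : ℝ × ℝ) :
    Jac1 (fun z => (Hf a ρ z).re) (fun z => (Hf a ρ z).im) p := by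
  have h1 := comp_re _ _ _ (Hf_deriv a ρ hρ ha p)
  have h2 := comp_im _ _ _ (Hf_deriv a ρ hρ ha p)
  have h3 := hdet (ρ • cc p)
  rw [jac_det] at h3
  unfold Jac1 px ps
  rw [h1.fderiv, h2.fderiv]
  have c1 : cc (1, 0) = 1 := by rw [cc_apply]; rfl
  have c2 : cc (0, 1) = Complex.I := by rw [cc_apply]; rfl
  simp only [ContinuousLinearMap.comp_apply, sub_apply, c1, c2,
    Complex.reCLM_apply, Complex.imCLM_apply, Complex.sub_re, Complex.sub_im, Complex.one_re,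
    Complex.one_im, Complex.I_re, Complex.I_im]
  linear_combination h3

/-- conjugation by a scaling -/
noncomputable def resc (f : Equiv.Perm ℂ) (ρ : ℝ) (h : ρ ≠ 0) : Equiv.Perm ℂ where
  toFun z := ρ • f (ρ⁻¹ • z)
  invFun z := ρ • f.symm (ρ⁻¹ • z)
  left_inv z := by simp [h]
  right_inv z := by simp [h]

lemma resc_AP (f : Equiv.Perm ℂ) (ρ : ℝ) (h : ρ ≠ 0) (hf : AP f) : AP (resc f ρ h) := by
  obtain ⟨h1, h2, h3⟩ := hf
  refine ⟨?_, ?_, fun z => ?_⟩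
  · exact (h1.comp (contDiff_id.const_smul ρ⁻¹)).const_smul ρ
  · exact (h2.comp (contDiff_id.const_smul ρ⁻¹)).const_smul ρ
  · have hd : HasFDerivAt (⇑(resc f ρ h)) (fderiv ℝ (⇑f) (ρ⁻¹ • z)) z := by
      have k1 : HasFDerivAt (fun q : ℂ => ρ⁻¹ • q) (ρ⁻¹ • ContinuousLinearMap.id ℝ ℂ) z :=
        (hasFDerivAt_id z).const_smul ρ⁻¹
      have k2 := (((h1.differentiable (by simp)) (ρ⁻¹ • z)).hasFDerivAt.comp z k1).const_smul ρ
      refine k2.congr_fderiv ?_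
      ext <;> simp [h]
    rw [hd.fderiv]
    exact h3 _

lemma resc_CS (f : Equiv.Perm ℂ) (ρ : ℝ) (h : ρ ≠ 0) (hp : 0 < ρ) (hf : CS f) :
    CS (resc f ρ h) := by
  obtain ⟨r, hr⟩ := hf
  refine ⟨ρ * r, fun z hz => ?_⟩
  have : r < ‖ρ⁻¹ • z‖ := by
    rw [norm_smul, Real.norm_eq_abs, abs_of_pos (inv_pos.2 hp)]
    rw [lt_inv_mul_iff₀ hp]
    exact hz
  show ρ • f (ρ⁻¹ • z) = z
  rw [hr _ this]
  simp [h]

lemma small_mono {δ δ' : ℝ} {u : ℝ × ℝ → ℝ} (h : SmallC1 δ u) (hd : δ ≤ δ') : SmallC1 δ' u :=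
  ⟨h.1, fun p => ⟨(h.2 p).1.trans hd, (h.2 p).2.trans hd⟩⟩

lemma jac_congr {u v u' v' : ℝ × ℝ → ℝ} {p : ℝ × ℝ} (hu : u =ᶠ[nhds p] u')
    (hv : v =ᶠ[nhds p] v') (h : Jac1 u' v' p) : Jac1 u v p := by
  unfold Jac1 px ps at *
  rw [hu.fderiv_eq, hv.fderiv_eq]
  exact h

theorem t_tan (h1 : S_core) (h2 : S_pot) (h3 : S_gf) : S_tan := by
  intro a ha h0 hd
  let χ1 : ContDiffBump (0 : ℝ × ℝ) := ⟨3, 4, by norm_num, by norm_num⟩
  let χ2 : ContDiffBump (0 : ℝ × ℝ) := ⟨1, 3 / 2, by norm_num, by norm_num⟩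
  have hs1 : Sm χ1 := χ1.contDiff
  have hs2 : Sm χ2 := χ2.contDiff
  have hc1 : HasCompactSupport χ1 := χ1.hasCompactSupport
  have hc2 : HasCompactSupport χ2 := χ2.hasCompactSupport
  have ht1 : tsupport χ1 = Metric.closedBall 0 4 := χ1.tsupport_eq
  have ht2 : tsupport χ2 = Metric.closedBall 0 (3 / 2) := χ2.tsupport_eq
  have hone1 : ∀ p : ℝ × ℝ, ‖p‖ < 3 → (χ1 : ℝ × ℝ → ℝ) =ᶠ[nhds p] fun _ => 1 := by
    intro p hp
    exact χ1.eventuallyEq_one_of_mem_ball (by simpa using hp)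
  have hone2 : ∀ p : ℝ × ℝ, ‖p‖ < 1 → (χ2 : ℝ × ℝ → ℝ) =ᶠ[nhds p] fun _ => 1 := by
    intro p hp
    exact χ2.eventuallyEq_one_of_mem_ball (by simpa using hp)
  obtain ⟨C1, hC1, hb1⟩ := cut_small χ1 hs1 hc1
  obtain ⟨C2, hC2, hb2⟩ := cut_prim χ2 hs2 hc2 (Metric.ball 0 2) Metric.isOpen_ball
    (by rw [ht2]; exact Metric.closedBall_subset_ball (by norm_num))
  obtain ⟨δ, hδ0, hδ1, hδ2⟩ : ∃ δ : ℝ, 0 < δ ∧ δ ≤ 1 / 4 ∧ C2 * (16 * δ) ≤ 1 / 2 := by
    refine ⟨min (1 / 4) (1 / (32 * (C2 + 1))), by positivity, min_le_left _ _, ?_⟩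
    have : min (1 / 4) (1 / (32 * (C2 + 1))) ≤ 1 / (32 * (C2 + 1)) := min_le_right _ _
    calc C2 * (16 * min (1 / 4) (1 / (32 * (C2 + 1)))) ≤ C2 * (16 * (1 / (32 * (C2 + 1)))) := by
          gcongr
      _ = (C2 / (C2 + 1)) / 2 := by
        have hne : C2 + 1 ≠ 0 := by positivity
        field_simp
        try ring
      _ ≤ 1 / 2 := by
        have : C2 / (C2 + 1) ≤ 1 := by rw [div_le_one (by positivity)]; linarith
        linarith
  obtain ⟨ω, hω0, hω1⟩ : ∃ ω : ℝ, 0 < ω ∧ C1 * ω ≤ δ := by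
    refine ⟨δ / (C1 + 1), by positivity, ?_⟩
    rw [mul_div_assoc', div_le_iff₀ (by positivity)]
    nlinarith
  obtain ⟨ρ, hρ0, hρ⟩ := Hf_small a ha.1 h0 hd ω hω0
  have had : Differentiable ℝ a := ha.1.differentiable (by simp)
  have hHs : ContDiff ℝ ∞' (Hf a ρ) := Hf_smooth a ρ ha.1
  have hHd : ∀ p, HasFDerivAt (Hf a ρ) (fderiv ℝ (Hf a ρ) p) p := fun p =>
    (hHs.differentiable (by simp) p).hasFDerivAt
  set U : ℝ × ℝ → ℝ := fun p => (Hf a ρ p).re with hU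
  set V : ℝ × ℝ → ℝ := fun p => (Hf a ρ p).im with hV
  have hUs : Sm U := Complex.reCLM.contDiff.comp hHs
  have hVs : Sm V := Complex.imCLM.contDiff.comp hHs
  set u : ℝ × ℝ → ℝ := fun p => χ1 p * U p with hu
  set v : ℝ × ℝ → ℝ := fun p => χ1 p * V p with hv
  have hus : SmallC1 δ u := by
    refine small_mono (hb1 U ω hω0.le hUs fun p hp => ?_) hω1
    rw [ht1] at hp
    have k := hρ p (by simpa using hp)
    refine ⟨(Complex.abs_re_le_norm _).trans k.1, ?_⟩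
    rw [(comp_re _ _ _ (hHd p)).fderiv]
    refine (ContinuousLinearMap.opNorm_comp_le _ _).trans ?_
    rw [Complex.reCLM_norm, one_mul]
    exact k.2
  have hvs : SmallC1 δ v := by
    refine small_mono (hb1 V ω hω0.le hVs fun p hp => ?_) hω1
    rw [ht1] at hp
    have k := hρ p (by simpa using hp)
    refine ⟨(Complex.abs_im_le_norm _).trans k.1, ?_⟩
    rw [(comp_im _ _ _ (hHd p)).fderiv]
    refine (ContinuousLinearMap.opNorm_comp_le _ _).trans ?_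
    rw [Complex.imCLM_norm, one_mul]
    exact k.2
  obtain ⟨σ, hσs, hσ1, hσ2, hps, hqs, hjac⟩ := h1 u v δ hδ1 hus hvs
  set p : ℝ × ℝ → ℝ := fun z => σ z - z.2 with hp
  set q : ℝ × ℝ → ℝ := fun z => u (z.1, σ z) with hq
  have hclosed : ∀ x ∈ Set.Ioo (-2 : ℝ) 2, ∀ y ∈ Set.Ioo (-2 : ℝ) 2,
      ps p (x, y) = px q (x, y) := by
    intro x hx y hy
    apply hjac
    have b1 : |σ (x, y) - y| ≤ 4 * δ := (hps.2 (x, y)).1
    have b2 : ‖((x, σ (x, y)) : ℝ × ℝ)‖ < 3 := by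
      rw [Prod.norm_def, max_lt_iff, Real.norm_eq_abs, Real.norm_eq_abs]
      have := abs_le.1 b1
      constructor
      · rw [abs_lt]; constructor <;> linarith [hx.1, hx.2]
      · rw [abs_lt]; constructor <;> simp only <;> linarith [hy.1, hy.2, this.1, this.2]
    refine jac_congr (u' := U) (v' := V) ?_ ?_ (Hf_jac a ρ hρ0.ne' had ha.2.2 _)
    · filter_upwards [hone1 _ b2] with z hz
      simp [hu, hz]
    · filter_upwards [hone1 _ b2] with z hz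
      simp [hv, hz]
  have hpot := h2 p q (Set.Ioo (-2) 2) (Set.Ioo (-2) 2) hps.1 hqs.1 isOpen_Ioo isOpen_Ioo
    Set.ordConnected_Ioo Set.ordConnected_Ioo (by norm_num) (by norm_num) hclosed
  set g0 : ℝ × ℝ → ℝ := fun z : ℝ × ℝ => (∫ t in (0 : ℝ)..z.1, p (t, 0)) +
    ∫ t in (0 : ℝ)..z.2, q (z.1, t) with hg0
  have hball : ∀ z : ℝ × ℝ, z ∈ Metric.ball (0 : ℝ × ℝ) 2 → |z.1| < 2 ∧ |z.2| < 2 := by
    intro z hz
    rw [mem_ball_zero_iff, Prod.norm_def, max_lt_iff, Real.norm_eq_abs, Real.norm_eq_abs] at hz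
    exact hz
  have hprim : ∀ z ∈ Metric.ball (0 : ℝ × ℝ) 2, HasFDerivAt g0
      (p z • ContinuousLinearMap.fst ℝ ℝ ℝ + q z • ContinuousLinearMap.snd ℝ ℝ ℝ) z := by
    intro z hz
    obtain ⟨k1, k2⟩ := hball z hz
    exact hpot z.1 (abs_lt.1 k1) z.2 (abs_lt.1 k2)
  obtain ⟨hgs, hgc, hgd, hg1⟩ := hb2 g0 p q (16 * δ) (by positivity) hps.1 hqs.1 hprim (by
    intro z hz
    obtain ⟨k1, k2⟩ := hball z hz
    have p1 := (hps.2 z).1
    have p2 := (hps.2 z).2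
    have q1 := (hqs.2 z).1
    have q2 := (hqs.2 z).2
    refine ⟨?_, ?_, p1.trans (by linarith), p2.trans (by linarith), q1.trans (by linarith),
      q2.trans (by linarith)⟩
    · have i1 := intervalIntegral.norm_integral_le_of_norm_le_const (a := 0) (b := z.1)
        (f := fun t => p (t, 0)) (C := 4 * δ) (fun t _ => (hps.2 (t, 0)).1)
      have i2 := intervalIntegral.norm_integral_le_of_norm_le_const (a := 0) (b := z.2)
        (f := fun t => q (z.1, t)) (C := 4 * δ) (fun t _ => (hqs.2 (z.1, t)).1)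
      rw [Real.norm_eq_abs, sub_zero] at i1 i2
      refine (abs_add_le _ _).trans ?_
      nlinarith
    · rw [(hprim z hz).fderiv]
      refine (norm_add_le _ _).trans ?_
      rw [norm_smul, norm_smul, Real.norm_eq_abs, Real.norm_eq_abs]
      have n1 := ContinuousLinearMap.norm_fst_le ℝ ℝ ℝ
      have n2 := ContinuousLinearMap.norm_snd_le ℝ ℝ ℝ
      have m1 : |p z| * ‖ContinuousLinearMap.fst ℝ ℝ ℝ‖ ≤ (4 * δ) * 1 :=
        mul_le_mul p1 n1 (norm_nonneg _) (by positivity)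
      have m2 : |q z| * ‖ContinuousLinearMap.snd ℝ ℝ ℝ‖ ≤ (4 * δ) * 1 :=
        mul_le_mul q1 n2 (norm_nonneg _) (by positivity)
      linarith)
  obtain ⟨f, hfA, hfC, hf⟩ := h3 (fun z => χ2 z * g0 z) hgs hgc (fun z =>
    ⟨(hgd z).1.trans hδ2, (hgd z).2.trans hδ2⟩)
  refine ⟨resc f ρ hρ0.ne', resc_AP f ρ _ hfA, resc_CS f ρ _ hρ0 hfC, ρ / 2, by positivity,
    fun z hz => ?_⟩
  show ρ • f (ρ⁻¹ • z) = a z
  set w : ℂ := ρ⁻¹ • z with hw
  have hwn : ‖w‖ < 1 / 2 := by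
    rw [hw, norm_smul, Real.norm_eq_abs, abs_of_pos (inv_pos.2 hρ0), inv_mul_lt_iff₀ hρ0]
    linarith
  have hx : |w.re| < 1 / 2 := (Complex.abs_re_le_norm w).trans_lt hwn
  have hy : |w.im| < 1 / 2 := (Complex.abs_im_le_norm w).trans_lt hwn
  set Y : ℝ := w.im + v (w.re, w.im) with hY
  have hv1 : |v (w.re, w.im)| ≤ δ := (hvs.2 _).1
  have hYn : |Y| < 1 := by
    refine (abs_add_le _ _).trans_lt ?_
    linarith
  have hxY : ‖((w.re, Y) : ℝ × ℝ)‖ < 1 := by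
    rw [Prod.norm_def, max_lt_iff, Real.norm_eq_abs, Real.norm_eq_abs]
    exact ⟨by simp only; linarith, hYn⟩
  have hxy : ‖((w.re, w.im) : ℝ × ℝ)‖ < 3 := by
    rw [Prod.norm_def, max_lt_iff, Real.norm_eq_abs, Real.norm_eq_abs]
    exact ⟨by simp only; linarith, by simp only; linarith⟩
  obtain ⟨e1, e2⟩ := hg1 (w.re, Y) (hone2 _ hxY) (by simpa using hxY.trans (by norm_num))
  have e3 := hf w.re Y
  rw [e1, e2] at e3
  have e4 : σ (w.re, Y) = w.im := hσ1 w.re w.im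
  simp only [hp, hq, e4] at e3
  have o1 : χ1 (w.re, w.im) = 1 := (hone1 _ hxy).self_of_nhds
  have e5 : f w = w + Hf a ρ (w.re, w.im) := by
    have : (⟨w.re, Y + (w.im - Y)⟩ : ℂ) = w := by
      apply Complex.ext <;> simp
    rw [this] at e3
    rw [e3]
    apply Complex.ext
    · simp [hu, hU, o1]
    · simp [hY, hv, hV, o1]
  have e6 : Hf a ρ (w.re, w.im) = ρ⁻¹ • a z - w := by
    unfold Hf
    have : cc (w.re, w.im) = w := by rw [cc_apply]
    rw [this, hw, smul_smul, mul_inv_cancel₀ hρ0.ne', one_smul]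
  rw [e5, e6]
  simp [hρ0.ne']

end Pool.Agent.W135.DP
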